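import Pool.Agent.D0H64.WS.Fld
import Pool.Agent.D0H64.WS.Exp
import Pool.Agent.D0H15.SK.Smf
import Pool.Agent.D0H65.SFK.PR
import Pool.Agent.D0H65.SFK.GM
import Pool.Agent.D0H25.SFK.FAM
import Pool.Agent.D0H25.SFK.CNT
import Pool.Agent.D0H25.SFK.PKF

/-!
# Many fields with a full wreath product as Galois group
-/

set_option autoImplicit false
set_option linter.all false

open Polynomial NumberField

namespace Pool.Agent.D0H64.WS

open Pool.Agent.D0H15.SK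
open Pool.Agent.N783.CF (WFull)

theorem expo' : ∃ n₀ : ℕ, ∀ n : ℕ, n₀ ≤ n →
    ∀ (K : Type) [Field K] [NumberField K] (P0 : IntermediateField K (AlgebraicClosure K) → Prop),
    Dat K n P0 → ∃ X₀ : ℝ, ∀ X : ℝ, X₀ ≤ X →
    (FldP K n P0 X).Finite ∧
    X ^ ((1 : ℝ) / 2 + 4 / (3 * n) - 16 * (Real.log n) ^ 2 / (n : ℝ) ^ 2) ≤
      ((FldP K n P0 X).ncard : ℝ) :=
  expo_of (Pool.Agent.D0H25.SFK.FAM.t_FAM Pool.Agent.D0H25.SFK.t_CNT Pool.Agent.D0H65.SFK.t_PR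
    (Pool.Agent.D0H65.SFK.GM.t_GM Pool.Agent.D0H25.SFK.t_CNT)
    (Pool.Agent.D0H25.SFK.CO.t_CO Pool.Agent.D0H25.SFK.t_CNT Pool.Agent.D0H25.SFK.t_APX))
    Pool.Agent.D0H65.SFK.t_IDX t_CAS Pool.Agent.D0H25.SFK.t_PKF Pool.Agent.D0H25.SFK.t_ONE
    (smf_of Pool.Agent.D0H25.SFK.t_CNT)

theorem main : ∃ n₀ : ℕ, ∀ n : ℕ, n₀ ≤ n → ∀ (K : Type) [Field K] [NumberField K]
    (M : IntermediateField K (AlgebraicClosure K)) [NumberField M], ∃ X₀ : ℝ, ∀ X : ℝ, X₀ ≤ X →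
    ∃ T : Set (IntermediateField K (AlgebraicClosure K)),
      (∀ L ∈ T, Module.finrank K L = Module.finrank K M * n ∧ DB L X ∧ WFull M L) ∧
      X ^ ((1 : ℝ) / 2 + 4 / (3 * n) - 16 * (Real.log n) ^ 2 / (n : ℝ) ^ 2) ≤ (T.ncard : ℝ) := by
  obtain ⟨n₀, h⟩ := expo'
  refine ⟨max n₀ 4, fun n hn K _ _ M _ => ?_⟩
  have : Algebra.IsAlgebraic M (AlgebraicClosure K) := Algebra.IsAlgebraic.tower_top (K := K) M
  have : IsAlgClosure M (AlgebraicClosure K) := ⟨inferInstance, inferInstance⟩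
  obtain ⟨e⟩ : Nonempty (AlgebraicClosure M ≃ₐ[M] AlgebraicClosure K) :=
    ⟨IsAlgClosure.equiv M (AlgebraicClosure M) (AlgebraicClosure K)⟩
  obtain ⟨X₀, hX⟩ := h n (le_trans (le_max_left _ _) hn) M (fun L => WFull M (up e L))
    (wsn K M e n (le_trans (le_max_right _ _) hn))
  refine ⟨X₀, fun X hX0 => ?_⟩
  obtain ⟨hfin, hle⟩ := hX X hX0
  refine ⟨(fun L : IntermediateField M (AlgebraicClosure M) => up e L) ''
    FldP M n (fun L => WFull M (up e L)) X, ?_, ?_⟩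
  · rintro _ ⟨L, ⟨h1, ⟨h2, h3⟩, -, h4⟩, rfl⟩
    have h5 : NumberField (up e L) := NumberField.of_ringEquiv _ _ (eL e L)
    refine ⟨by rw [finrank_up, h1], ⟨h5, ?_⟩, h4⟩
    rw [← NumberField.discr_eq_discr_of_ringEquiv L (eL e L)]
    exact h3
  · rw [Set.ncard_image_of_injective _ (up_inj e)]
    exact hle

end Pool.Agent.D0H64.WS
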