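import Pool.Agent.D0H15.SK.Ver

/-!
# Counting fields with an additional property

Adapted from `Pool.Agent.D0H15.SK.Ver`: the fields generated by the roots of the polynomials in the congruence class
have an additional property `P0`.
-/

set_option autoImplicit false
set_option linter.all false

open Polynomial NumberField

namespace Pool.Agent.D0H64.WS

open IntermediateField (adjoin)
open Pool.Agent.D0H41.SF (count3 eventual)
open Pool.Agent.D0H15.SK

/-- A congruence condition which forces the symmetric group and the property `P`. -/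
def Dat (K : Type) [Field K] [NumberField K] (n : ℕ)
    (P : IntermediateField K (AlgebraicClosure K) → Prop) : Prop :=
  ∃ q : ℕ, 1 ≤ q ∧ ∃ a0 : Fin (n - 1) → 𝓞 K, ∀ a : Fin (n - 1) → 𝓞 K, (∀ i, (q : 𝓞 K) ∣ a i - a0 i) →
    Irreducible (polK n a) ∧ ∀ θ : AlgebraicClosure K, aeval θ (polK n a) = 0 →
      Sym (adjoin K {θ}) ∧ P (adjoin K {θ})

/-- The extensions of degree `n` with symmetric group, the property `P` and `|disc L| ≤ X`. -/
def FldP (K : Type) [Field K] [NumberField K] (n : ℕ) (P : IntermediateField K (AlgebraicClosure K) → Prop)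
    (X : ℝ) : Set (IntermediateField K (AlgebraicClosure K)) :=
  {L | Module.finrank K L = n ∧ DB L X ∧ Sym L ∧ P L}

open scoped Classical in
/-- VER with an additional property of the fields -/
theorem ver (hFAM : S_FAM) (hIDX : S_IDX) (hCAS : S_CAS) (hPKF : S_PKF)
    (hONE : S_ONE) (hSMF : S_SMF) (K : Type) [Field K] [NumberField K] (n : ℕ)
    (P0 : IntermediateField K (AlgebraicClosure K) → Prop) (hData : Dat K n P0)
    (k J c : ℕ) (E C₀ : ℝ) (h2k : 2 ≤ k) (hkn : 2 * k ≤ n) (hJ : 1 ≤ J) (hc : n ≤ c * J + 1) (hE : 0 ≤ E)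
    (hF : ∀ X : ℝ, 1 ≤ X → (Flds K n X).Finite ∧ ((Flds K n X).ncard : ℝ) ≤ C₀ * X ^ E)
    (hA : 4 * n * c * E + 2 * n + 4 + k * (n + 1 - k : ℕ) < (n : ℝ) ^ 2 + n)
    (hB : n * (n + 1) / 2 + 2 * J + 4 + k * (n + 1 - k) < n ^ 2 + n) :
    ∃ C : ℝ, 0 < C ∧ ∃ V₀ : ℕ, ∀ V ≥ V₀,
      (V : ℝ) ^ (Module.finrank ℚ K * (n ^ 2 + n - 5 - J - k * (n + 1 - k))) ≤
        ((FldP K n P0 (C * (V : ℝ) ^ (Module.finrank ℚ K *
          (2 * n * (n - 1) - 2 * k * (n + 1 - k))))).ncard : ℝ) := by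
  have hn4 : 4 ≤ n := by omega
  obtain ⟨d, hd⟩ : ∃ d : ℕ, d = Module.finrank ℚ K := ⟨_, rfl⟩
  have hd1 : 1 ≤ d := by rw [hd]; exact Module.finrank_pos
  obtain ⟨q, hq, a0, hsn⟩ := hData
  obtain ⟨C1, hC1, V1, hfam⟩ := hFAM K n k q h2k hkn hq a0 (fun a ha => (hsn a ha).1)
  obtain ⟨C2, hC2, hroot⟩ := t_ROOT K n C1 (by omega) hC1
  obtain ⟨C3, hC3, hsmf⟩ := hSMF K n (by omega)
  obtain ⟨K1, hK1, hidx⟩ := hIDX K n (by omega)
  obtain ⟨K2, hK2, hcas⟩ := hCAS K n J c (by omega) hJ hc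
  simp only [← hd] at hfam hsmf hidx hcas ⊢
  have hex : ∀ a : Fin (n - 1) → 𝓞 K, ∃ z : AlgebraicClosure K, aeval z (polK n a) = 0 := by
    intro a
    exact IsAlgClosed.exists_aeval_eq_zero (k := AlgebraicClosure K) (R := K) (polK n a) (by
      rw [degree_eq_natDegree (polK_monic n (by omega) a).ne_zero, polK_natDegree n (by omega)]
      exact_mod_cast (by omega : n ≠ 0))
  choose θ hθ using hex
  have hC0 : 0 ≤ C₀ := by
    have h1 := (hF 1 le_rfl).2
    rw [Real.one_rpow, mul_one] at h1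
    exact le_trans (Nat.cast_nonneg _) h1
  set κ : ℕ := k * (n + 1 - k) with hκ
  have he1 : κ ≤ n * (n - 1) := by
    obtain ⟨j, rfl⟩ : ∃ j, n = 2 * k + j := ⟨n - 2 * k, by omega⟩
    have h1 : 2 * k + j + 1 - k = k + j + 1 := by omega
    have h2 : 2 * k + j - 1 + 1 = 2 * k + j := by omega
    rw [hκ, h1]
    obtain ⟨i, hi⟩ : ∃ i, 2 * k + j - 1 = i := ⟨_, rfl⟩
    rw [hi] at h2 ⊢
    have h3 : k + j + 1 ≤ i := by omega
    nlinarith
  set D : ℕ := 2 * n * (n - 1) - 2 * k * (n + 1 - k) with hD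
  have hD1 : D + 2 * κ = 2 * (n * (n - 1)) := by
    rw [hD, hκ]
    have h1 : 2 * k * (n + 1 - k) = 2 * κ := by rw [hκ]; ring
    have h2 : 2 * n * (n - 1) = 2 * (n * (n - 1)) := by ring
    rw [h1, h2]
    omega
  set w : ℕ := n * (n - 1) / 2 with hw
  have hw2 : 2 * w = n * (n - 1) := by
    rw [hw]
    exact Nat.two_mul_div_two_of_even (Nat.even_mul_pred_self n)
  set K0 : ℝ := K1 * C2 ^ (d * w) with hK0
  have hK01 : 1 ≤ K0 := by
    rw [hK0]
    have h1 : (1 : ℝ) ≤ C2 ^ (d * w) := one_le_pow₀ hC2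
    nlinarith
  set KA : ℝ := K2 * C2 ^ (d * (n * c)) with hKA
  have hKA1 : 1 ≤ KA := by
    rw [hKA]
    have h1 : (1 : ℝ) ≤ C2 ^ (d * (n * c)) := one_le_pow₀ hC2
    nlinarith
  -- the exponent of the number of polynomials
  obtain ⟨M, hM⟩ : ∃ M : ℕ, M = d * (n ^ 2 + n - 2 - κ) - 2 := ⟨_, rfl⟩
  have hκn : κ + 4 + 2 * J + n * (n + 1) / 2 < n ^ 2 + n := by omega
  have hM1 : d * (n ^ 2 + n - 4 - κ) ≤ M := by
    have h1 : d * (n ^ 2 + n - 2 - κ) = d * (n ^ 2 + n - 4 - κ) + 2 * d := by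
      have : n ^ 2 + n - 2 - κ = (n ^ 2 + n - 4 - κ) + 2 := by omega
      rw [this]; ring
    omega
  have hM2 : d * (n ^ 2 + n - 5 - J - κ) ≤ M - d * J - 1 := by
    have h1 : d * (n ^ 2 + n - 2 - κ) = d * (n ^ 2 + n - 5 - J - κ) + d * J + 3 * d := by
      have : n ^ 2 + n - 2 - κ = (n ^ 2 + n - 5 - J - κ) + J + 3 := by omega
      rw [this]; ring
    omega
  -- the inequality for large V
  obtain ⟨V2, hev⟩ := eventual M (d * J) (d * (n * (n + 1) / 2) + 2 * (d * J))
    (4 * d * n * c * E + 2 * d * n) (C₀ * (KA ^ 2) ^ E * (3 * C2) ^ (d * n))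
    (C3 * (3 * C2) ^ (d * J)) ((3 * C2) ^ (d * J))
    (by positivity) (by positivity) (by positivity)
    (by
      have h1 : 4 + κ ≤ n ^ 2 + n := by omega
      have h2 : ((n ^ 2 + n - 4 - κ : ℕ) : ℝ) = (n : ℝ) ^ 2 + n - 4 - κ := by
        rw [Nat.sub_sub, Nat.cast_sub h1]
        push_cast
        ring
      have h3 : ((κ : ℕ) : ℝ) = (k : ℝ) * ((n + 1 - k : ℕ) : ℝ) := by rw [hκ]; push_cast; ring
      have h4 : 4 * (n : ℝ) * c * E + 2 * n < ((n ^ 2 + n - 4 - κ : ℕ) : ℝ) := by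
        rw [h2, h3]
        linarith
      have h5 : ((d * (n ^ 2 + n - 4 - κ) : ℕ) : ℝ) ≤ (M : ℝ) := by exact_mod_cast hM1
      have hd0 : (0 : ℝ) < d := by exact_mod_cast hd1
      have h6 : (d : ℝ) * (4 * (n : ℝ) * c * E + 2 * n) < d * ((n ^ 2 + n - 4 - κ : ℕ) : ℝ) :=
        mul_lt_mul_of_pos_left h4 hd0
      rw [Nat.cast_mul] at h5
      calc 4 * (d : ℝ) * n * c * E + 2 * d * n = d * (4 * (n : ℝ) * c * E + 2 * n) := by ring
        _ < d * ((n ^ 2 + n - 4 - κ : ℕ) : ℝ) := h6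
        _ ≤ M := h5)
    (by
      have h1 : d * (n * (n + 1) / 2 + 2 * J + 1) ≤ d * (n ^ 2 + n - 4 - κ) :=
        Nat.mul_le_mul_left _ (by omega)
      have h2 : d * (n * (n + 1) / 2 + 2 * J + 1) =
        d * (n * (n + 1) / 2) + 2 * (d * J) + d := by ring
      omega)
    (by
      have h1 : d * (n * (n + 1) / 2 + 2 * J + 1) ≤ d * (n ^ 2 + n - 4 - κ) :=
        Nat.mul_le_mul_left _ (by omega)
      have h2 : d * (n * (n + 1) / 2 + 2 * J + 1) =
        d * (n * (n + 1) / 2) + 2 * (d * J) + d := by ring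
      have h3 : 0 ≤ d * (n * (n + 1) / 2) := Nat.zero_le _
      omega)
  refine ⟨K0 ^ 2, by positivity, max (max V1 V2) 1, ?_⟩
  intro V hV
  have hVa : V1 ≤ V := le_trans (le_trans (le_max_left _ _) (le_max_left _ _)) hV
  have hVb : V2 ≤ V := le_trans (le_trans (le_max_right _ _) (le_max_left _ _)) hV
  have hVd : 1 ≤ V := le_trans (le_max_right _ _) hV
  have hV0 : (0 : ℝ) < V := by exact_mod_cast hVd
  have hV1' : (1 : ℝ) ≤ V := by exact_mod_cast hVd
  obtain ⟨A, hAc, hAg⟩ := hfam V hVa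
  set T : ℝ := C2 * (V : ℝ) ^ 2 with hT
  have hT1 : 1 ≤ T := by
    rw [hT]
    have h1 : (1 : ℝ) ≤ (V : ℝ) ^ 2 := one_le_pow₀ hV1'
    nlinarith
  have hirr : ∀ a ∈ A, Irreducible (polK n a) := fun a ha => (hsn a (hAg a ha).cong).1
  have hsiz : ∀ a ∈ A, Siz (θ a) T := fun a ha => hroot V a hVd (hAg a ha).size (θ a) (hθ a)
  have hint : ∀ a, IsIntegral ℤ (θ a) := fun a => integral_root n (by omega) a (θ a) (hθ a)
  set XV : ℝ := K0 ^ 2 * (V : ℝ) ^ (d * D) with hXV
  have hXV1 : 1 ≤ XV := by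
    have h1 : (1 : ℝ) ≤ (V : ℝ) ^ (d * D) := one_le_pow₀ hV1'
    have h2 : (1 : ℝ) ≤ K0 ^ 2 := one_le_pow₀ hK01
    nlinarith
  -- the fields
  have hfld : ∀ a ∈ A, Module.finrank K (adjoin K {θ a}) = n ∧ (Sym (adjoin K {θ a}) ∧ P0 (adjoin K {θ a})) ∧
      DB (adjoin K {θ a}) XV := by
    intro a ha
    obtain ⟨R, m, hr, hr2, hm1, hm2⟩ := (hAg a ha).index
    rw [← hd] at hr2
    have hr0 : 0 < Ideal.absNorm R := lt_of_le_of_lt (Nat.zero_le _) hr2
    obtain ⟨h1, h2⟩ := hidx a (θ a) R m T hT1 (hirr a ha) (hθ a) hr hm1 hm2 (hsiz a ha)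
    refine ⟨h1, (hsn a (hAg a ha).cong).2 (θ a) (hθ a), DB_mono h2 ?_⟩
    have hre : (V : ℝ) ^ (d * κ) ≤ (Ideal.absNorm R : ℝ) := by exact_mod_cast hr2.le
    have hr1 : (0 : ℝ) < (Ideal.absNorm R : ℝ) := by exact_mod_cast hr0
    have h3 : K1 * T ^ (d * w) = K0 * (V : ℝ) ^ (d * (2 * w)) := by
      rw [hT, hK0, mul_pow, ← pow_mul]
      ring
    rw [h3, hw2, div_pow, hXV, div_le_iff₀ (by positivity)]
    have h4 : (K0 * (V : ℝ) ^ (d * (n * (n - 1)))) ^ 2 =
        K0 ^ 2 * (V : ℝ) ^ (d * D) * ((V : ℝ) ^ (d * κ)) ^ 2 := by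
      have h5 : d * (n * (n - 1)) * 2 = d * D + d * κ * 2 := by
        have : n * (n - 1) * 2 = D + 2 * κ := by omega
        calc d * (n * (n - 1)) * 2 = d * (n * (n - 1) * 2) := by ring
          _ = _ := by rw [this]; ring
      rw [mul_pow, ← pow_mul, ← pow_mul, h5, pow_add]
      ring
    rw [h4]
    gcongr
  set Lf : (Fin (n - 1) → 𝓞 K) → IntermediateField K (AlgebraicClosure K) :=
    fun a => adjoin K {θ a} with hLf
  have hfinX := hF XV hXV1
  have hsymfin : (FldP K n P0 XV).Finite := hfinX.1.subset (fun L hL => ⟨hL.1, hL.2.1⟩)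
  have himg : ∀ L ∈ A.image Lf, Module.finrank K L = n ∧ (Sym L ∧ P0 L) ∧ DB L XV := by
    intro L hL
    obtain ⟨a, ha, rfl⟩ := Finset.mem_image.1 hL
    exact hfld a ha
  set Sd : IntermediateField K (AlgebraicClosure K) → Finset (AlgebraicClosure K) :=
    fun L => (A.filter (fun a => adjoin K {θ a} = L)).image θ with hSd
  have hSdmem : ∀ L, ∀ x ∈ Sd L, x ∈ L ∧ IsIntegral ℤ x ∧ Siz x T ∧
      ∃ a ∈ A, x = θ a := by
    intro L x hx
    obtain ⟨a, ha, rfl⟩ := Finset.mem_image.1 hx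
    rw [Finset.mem_filter] at ha
    refine ⟨?_, hint a, hsiz a ha.1, a, ha.1, rfl⟩
    rw [← ha.2]
    exact IntermediateField.mem_adjoin_simple_self K (θ a)
  obtain ⟨P, hP⟩ : ∃ P : IntermediateField K (AlgebraicClosure K) → Prop,
    ∀ L, P L ↔ J < Module.finrank K (Submodule.span K (Sd L : Set (AlgebraicClosure K))) :=
    ⟨_, fun _ => Iff.rfl⟩
  obtain ⟨Q, hQ⟩ : ∃ Q : IntermediateField K (AlgebraicClosure K) → Prop,
    ∀ L, Q L ↔ ∃ z ∈ L, IsIntegral ℤ z ∧ z ∉ Set.range (algebraMap K (AlgebraicClosure K)) ∧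
      Siz z (V : ℝ) :=
    ⟨_, fun _ => Iff.rfl⟩
  have hone : ∀ L, ∀ x ∈ Sd L, ∀ y ∈ Sd L, x ≠ y → Lrg (x - y) 1 := by
    intro L x hx y hy hxy
    exact hONE K _ ((hSdmem L x hx).2.1.sub (hSdmem L y hy).2.1) (sub_ne_zero.2 hxy)
  have key := count3 A Lf P Q ((1 + 2 * T) ^ (d * n)) ((1 + 2 * T) ^ (d * J))
    ((1 + 2 * T / V) ^ (d * J))
    (C₀ * ((KA * (V : ℝ) ^ (2 * (d * (n * c)))) ^ 2) ^ E)
    (C3 * (V : ℝ) ^ (d * (n * (n + 1) / 2)))
    ((FldP K n P0 XV).ncard : ℝ) (by positivity) (by positivity) (by positivity)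
    (by
      intro L hL _
      have h1 := himg L hL
      have := fibre hPKF n (by omega) θ hθ A hirr T hT1 hsiz L h1.1 1 one_pos n (by
        have : FiniteDimensional K L := FiniteDimensional.of_finrank_pos (by omega)
        have h2 : Submodule.span K (Sd L : Set (AlgebraicClosure K)) ≤
            Subalgebra.toSubmodule L.toSubalgebra := by
          rw [Submodule.span_le]
          intro x hx
          exact (hSdmem L x hx).1
        have h3 : FiniteDimensional K (Subalgebra.toSubmodule L.toSubalgebra) := this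
        have h4 := Submodule.finrank_mono h2
        exact h4.trans (le_of_eq h1.1)) (hone L)
      rw [div_one, ← hd] at this
      exact this)
    (by
      intro L hL hnP _
      have h1 := himg L hL
      have := fibre hPKF n (by omega) θ hθ A hirr T hT1 hsiz L h1.1 1 one_pos J
        (not_lt.1 (fun h => hnP ((hP L).2 h)))
        (hone L)
      rw [div_one, ← hd] at this
      exact this)
    (by
      intro L hL hnP hnQ
      have h1 := himg L hL
      have := fibre hPKF n (by omega) θ hθ A hirr T hT1 hsiz L h1.1 V hV0 J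
        (not_lt.1 (fun h => hnP ((hP L).2 h))) ?_
      · rw [← hd] at this
        exact this
      intro x hx y hy hxy
      obtain ⟨hx1, hx2, _, a, ha, hxa⟩ := hSdmem L x hx
      obtain ⟨hy1, hy2, _, a', ha', hya⟩ := hSdmem L y hy
      have h2 : x - y ∉ Set.range (algebraMap K (AlgebraicClosure K)) := by
        apply t_TRZ K n L a a' x y (by omega) h1.1 hx1 hy1 (hirr a ha) (hirr a' ha') _ _ hxy
        · rw [hxa]; exact hθ a
        · rw [hya]; exact hθ a'
      have h3 : ¬ Siz (x - y) (V : ℝ) := by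
        intro h4
        exact hnQ ((hQ L).2 ⟨x - y, L.sub_mem hx1 hy1, hx2.sub hy2, h2, h4⟩)
      unfold Siz at h3
      push Not at h3
      obtain ⟨φ, hφ⟩ := h3
      exact ⟨φ, hφ.le⟩)
    (by
      have hZ1 : 1 ≤ (KA * (V : ℝ) ^ (2 * (d * (n * c)))) ^ 2 := by
        apply one_le_pow₀
        have h1 : (1 : ℝ) ≤ (V : ℝ) ^ (2 * (d * (n * c))) := one_le_pow₀ hV1'
        nlinarith
      obtain ⟨h1, h2⟩ := hF _ hZ1
      refine le_trans ?_ h2
      have h3 : ((((A.image Lf).filter P : Finset (IntermediateField K (AlgebraicClosure K))) :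
          Set (IntermediateField K (AlgebraicClosure K))).ncard : ℝ) =
          (((A.image Lf).filter P).card : ℝ) := by
        rw [Set.ncard_coe_finset]
      rw [← h3]
      have h4 : (((A.image Lf).filter P : Finset (IntermediateField K (AlgebraicClosure K))) :
          Set (IntermediateField K (AlgebraicClosure K))) ⊆
            Flds K n ((KA * (V : ℝ) ^ (2 * (d * (n * c)))) ^ 2) := by
        intro L hL
        rw [Finset.mem_coe, Finset.mem_filter] at hL
        have h5 := himg L hL.1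
        refine ⟨h5.1, ?_⟩
        obtain ⟨u, hu, hlin⟩ := extract (Sd L) J ((hP L).1 hL.2)
        have h6 := hcas L T u h5.1 h5.2.1.1 hT1 (fun i =>
          ⟨(hSdmem L _ (hu i)).1, (hSdmem L _ (hu i)).2.1, (hSdmem L _ (hu i)).2.2.1⟩) hlin
        refine DB_mono h6 (le_of_eq ?_)
        rw [hT, hKA, mul_pow C2, ← pow_mul (V : ℝ)]
        ring
      exact_mod_cast Set.ncard_le_ncard h4 h1)
    (by
      obtain ⟨h1, h2⟩ := hsmf V hV1'
      refine le_trans ?_ h2
      have h3 : ((((A.image Lf).filter Q : Finset (IntermediateField K (AlgebraicClosure K))) :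
          Set (IntermediateField K (AlgebraicClosure K))).ncard : ℝ) =
          (((A.image Lf).filter Q).card : ℝ) := by
        rw [Set.ncard_coe_finset]
      rw [← h3]
      have h4 : (((A.image Lf).filter Q : Finset (IntermediateField K (AlgebraicClosure K))) :
          Set (IntermediateField K (AlgebraicClosure K))) ⊆
          {L : IntermediateField K (AlgebraicClosure K) | Module.finrank K L = n ∧
            Sym L ∧ ∃ θ ∈ L, IsIntegral ℤ θ ∧
            θ ∉ Set.range (algebraMap K (AlgebraicClosure K)) ∧ Siz θ (V : ℝ)} := by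
        intro L hL
        rw [Finset.mem_coe, Finset.mem_filter] at hL
        have h5 := himg L hL.1
        exact ⟨h5.1, h5.2.1.1, (hQ L).1 hL.2⟩
      exact_mod_cast Set.ncard_le_ncard h4 h1)
    (by
      have h3 : (((A.image Lf : Finset (IntermediateField K (AlgebraicClosure K))) :
          Set (IntermediateField K (AlgebraicClosure K))).ncard : ℝ) =
          ((A.image Lf).card : ℝ) := by
        rw [Set.ncard_coe_finset]
      rw [← h3]
      have h4 : ((A.image Lf : Finset (IntermediateField K (AlgebraicClosure K))) :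
          Set (IntermediateField K (AlgebraicClosure K))) ⊆ FldP K n P0 XV := by
        intro L hL
        have h5 := himg L (Finset.mem_coe.1 hL)
        exact ⟨h5.1, h5.2.2, h5.2.1.1, h5.2.1.2⟩
      exact_mod_cast Set.ncard_le_ncard h4 hsymfin)
  have hfinal := hev V hVb ((FldP K n P0 XV).ncard : ℝ) (by
    have hAc' : (V : ℝ) ^ M ≤ (A.card : ℝ) := by
      rw [hM]
      exact_mod_cast hAc
    refine hAc'.trans (key.trans ?_)
    have hb : 1 + 2 * T ≤ 3 * C2 * (V : ℝ) ^ 2 := by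
      rw [hT] at hT1 ⊢
      linarith
    have hbV : 1 + 2 * T / V ≤ 3 * C2 * V := by
      rw [hT]
      have h1 : 2 * (C2 * (V : ℝ) ^ 2) / V = 2 * C2 * V := by
        field_simp
      rw [h1]
      have h2 : 1 ≤ C2 * (V : ℝ) := by nlinarith
      linarith
    have h1 : C₀ * ((KA * (V : ℝ) ^ (2 * (d * (n * c)))) ^ 2) ^ E * (1 + 2 * T) ^ (d * n) ≤
        C₀ * (KA ^ 2) ^ E * (3 * C2) ^ (d * n) * (V : ℝ) ^ (4 * d * n * c * E + 2 * d * n) := by
      have h2 : ((KA * (V : ℝ) ^ (2 * (d * (n * c)))) ^ 2) ^ E =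
          (KA ^ 2) ^ E * (V : ℝ) ^ (4 * d * n * c * E) := by
        rw [mul_pow, Real.mul_rpow (by positivity) (by positivity), ← pow_mul,
          ← Real.rpow_natCast (V : ℝ), ← Real.rpow_mul hV0.le]
        congr 2
        push_cast
        ring
      rw [h2]
      have h3 : (1 + 2 * T) ^ (d * n) ≤ (3 * C2) ^ (d * n) * (V : ℝ) ^ (2 * d * (n : ℝ)) := by
        have h4 : (V : ℝ) ^ (2 * d * (n : ℝ)) = ((V : ℝ) ^ 2) ^ (d * n) := by
          rw [← pow_mul, ← Real.rpow_natCast]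
          push_cast
          congr 1
          ring
        rw [h4, ← mul_pow]
        exact pow_le_pow_left₀ (by positivity) hb _
      calc C₀ * ((KA ^ 2) ^ E * (V : ℝ) ^ (4 * d * n * c * E)) * (1 + 2 * T) ^ (d * n)
          ≤ C₀ * ((KA ^ 2) ^ E * (V : ℝ) ^ (4 * d * n * c * E)) *
            ((3 * C2) ^ (d * n) * (V : ℝ) ^ (2 * d * (n : ℝ))) := by
              apply mul_le_mul_of_nonneg_left h3
              positivity
        _ = C₀ * (KA ^ 2) ^ E * (3 * C2) ^ (d * n) *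
            ((V : ℝ) ^ (4 * d * n * c * E) * (V : ℝ) ^ (2 * d * (n : ℝ))) := by ring
        _ = _ := by rw [← Real.rpow_add hV0]
    have h5 : C3 * (V : ℝ) ^ (d * (n * (n + 1) / 2)) * (1 + 2 * T) ^ (d * J) ≤
        C3 * (3 * C2) ^ (d * J) * (V : ℝ) ^ (d * (n * (n + 1) / 2) + 2 * (d * J)) := by
      calc C3 * (V : ℝ) ^ (d * (n * (n + 1) / 2)) * (1 + 2 * T) ^ (d * J)
          ≤ C3 * (V : ℝ) ^ (d * (n * (n + 1) / 2)) * (3 * C2 * (V : ℝ) ^ 2) ^ (d * J) := by
            gcongr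
        _ = _ := by
            rw [mul_pow, ← pow_mul, pow_add]
            ring
    have h6 : ((FldP K n P0 XV).ncard : ℝ) * (1 + 2 * T / V) ^ (d * J) ≤
        ((FldP K n P0 XV).ncard : ℝ) * ((3 * C2) ^ (d * J) * (V : ℝ) ^ (d * J)) := by
      apply mul_le_mul_of_nonneg_left _ (Nat.cast_nonneg _)
      rw [← mul_pow]
      exact pow_le_pow_left₀ (by positivity) hbV _
    linarith)
  refine le_trans ?_ hfinal
  exact pow_le_pow_right₀ hV1' hM2

end Pool.Agent.D0H64.WS
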