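import Pool.Agent.D0H64.WS.Fib
import Pool.Agent.D0H42.SFK.SN
import Pool.Agent.N540.WR.FRB
import Pool.Agent.N545.WR.SPL
import Pool.Agent.N710.WR.FR1
import Pool.Agent.N288.WR.ALP

/-!
# A Frobenius element which interchanges two roots

A congruence condition on the polynomials `pol m a` over the integers of `M` which forces that some automorphism over
`K` interchanges two roots and fixes all the other roots of all the conjugate polynomials.
-/

set_option autoImplicit false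
set_option linter.all false

open Polynomial NumberField

namespace Pool.Agent.D0H64.WS

open Pool.Agent.D0H15.SK (pol pol_monic pol_natDegree)
open Pool.Agent.N783.CF (Zr Spl)
open Pool.Agent.N540.WR (io io_coe io_inj lies_over zr_int zr_fin exists_nat)
open Pool.Agent.D0H42.SFK (TC exC exists_over pol_map cast_ne)

/-- trace zero, different linear factors -/
lemma exL (k : Type) [Field k] [Finite k] (p : ℕ) [hp : Fact p.Prime] [CharP k p] (n : ℕ) (hn : 4 ≤ n)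
    (hnp : n < p) : ∃ g : k[X], g.Monic ∧ g.natDegree = n ∧ g.coeff (n - 1) = 0 ∧ TL k n g := by
  obtain ⟨m, rfl⟩ : ∃ m, n = m + 1 := ⟨n - 1, by omega⟩
  have hk : ((m + 1 : ℕ) : k) ≠ 0 := cast_ne k p (m + 1) (by omega) hnp
  let c : Fin (m + 1) → k := fun i => ((i : ℕ) : k)
  have hc : Function.Injective c := by
    intro i j hij
    have h1 : ((i : ℕ) : k) = ((j : ℕ) : k) := hij
    rw [CharP.natCast_eq_natCast k p] at h1
    have h2 : (i : ℕ) % p = (j : ℕ) % p := h1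
    rw [Nat.mod_eq_of_lt (by omega), Nat.mod_eq_of_lt (by omega)] at h2
    exact Fin.ext h2
  have hmp : (∏ i, (X - C (c i)) : k[X]).Monic :=
    monic_prod_of_monic _ _ fun i _ => monic_X_sub_C _
  have hd' : (∏ i, (X - C (c i)) : k[X]).natDegree = m + 1 := by
    rw [natDegree_prod_of_monic _ _ fun i _ => monic_X_sub_C _]
    simp only [natDegree_X_sub_C, Finset.sum_const, Finset.card_univ, Fintype.card_fin,
      smul_eq_mul, mul_one]
  obtain ⟨s, hs⟩ := Pool.Agent.D0H42.SF.exists_shift k m hk _ hmp hd'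
  refine ⟨taylor s (∏ i, (X - C (c i))), ?_, ?_, ?_, ?_⟩
  · rw [Monic, leadingCoeff_taylor]
    exact hmp
  · rw [natDegree_taylor, hd']
  · exact hs
  · refine ⟨fun i => c i - s, ?_, ?_⟩
    · intro i j hij
      exact hc (sub_left_injective hij)
    · have h1 : taylorEquiv s (∏ i, (X - C (c i))) = ∏ i, taylorEquiv s (X - C (c i)) :=
        map_prod _ _ _
      refine h1.trans (Finset.prod_congr rfl fun i _ => ?_)
      change taylor s (X - C (c i)) = _
      rw [map_sub, taylor_X, taylor_C, C_sub]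
      ring

/-- Chinese remainder theorem for finitely many primes -/
lemma crtp {R : Type} [CommRing R] [IsDedekindDomain R] (S : Finset (Ideal R))
    (hS : ∀ P ∈ S, P.IsPrime ∧ P ≠ ⊥) (x : Ideal R → R) : ∃ y : R, ∀ P ∈ S, y - x P ∈ P := by
  obtain ⟨y, hy⟩ := IsDedekindDomain.exists_forall_sub_mem_ideal (s := S) (fun P : Ideal R => P) (fun _ => 1)
    (fun P hP => Ideal.prime_of_isPrime (hS P hP).2 (hS P hP).1) (fun P _ Q _ h => h) (fun P => x P.1)
  exact ⟨y, fun P hP => by simpa using hy P hP⟩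

/-- the residue field has `q` elements -/
lemma resd {R : Type} [CommRing R] (P : Ideal R) (hP : P.IsPrime) (q : ℕ) [hq : Fact q.Prime]
    (hqP : (q : R) ∈ P) (h : ∀ a : R, a ^ q - a ∈ P) : ∃ π : R →+* ZMod q, ∀ a : R, π a = 0 ↔ a ∈ P := by
  have h0 : ((q : ℕ) : R ⧸ P) = 0 := by
    rw [← map_natCast (Ideal.Quotient.mk P) q]
    exact Ideal.Quotient.eq_zero_iff_mem.2 hqP
  have : CharP (R ⧸ P) q := (CharP.charP_iff_prime_eq_zero hq.out).2 h0
  let c : ZMod q →+* R ⧸ P := ZMod.castHom dvd_rfl _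
  have hc : Function.Bijective c := by
    refine ⟨c.injective, fun y => ?_⟩
    obtain ⟨a, rfl⟩ := Ideal.Quotient.mk_surjective y
    obtain ⟨i, hi⟩ := exists_nat P q hq.out hqP a (h a)
    refine ⟨(i : ZMod q), ?_⟩
    rw [map_natCast]
    have h1 := Ideal.Quotient.eq_zero_iff_mem.2 hi
    rw [map_sub, map_natCast, sub_eq_zero] at h1
    exact h1.symm
  refine ⟨(RingEquiv.ofBijective c hc).symm.toRingHom.comp (Ideal.Quotient.mk P), fun a => ?_⟩
  constructor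
  · intro h1
    have h2 : (RingEquiv.ofBijective c hc).symm (Ideal.Quotient.mk P a) = 0 := h1
    rw [map_eq_zero_iff _ (RingEquiv.injective _)] at h2
    exact Ideal.Quotient.eq_zero_iff_mem.1 h2
  · intro h1
    show (RingEquiv.ofBijective c hc).symm (Ideal.Quotient.mk P a) = 0
    rw [Ideal.Quotient.eq_zero_iff_mem.2 h1, map_zero]

/-- a field which contains the residue field -/
lemma exists_res {R : Type} [CommRing R] (Q : Ideal R) (hQ : Q.IsPrime) :
    ∃ (F : Type) (_ : Field F) (r : R →+* F), ∀ y ∈ Q, r y = 0 := by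
  refine ⟨FractionRing (R ⧸ Q), inferInstance, (algebraMap (R ⧸ Q) (FractionRing (R ⧸ Q))).comp
    (Ideal.Quotient.mk Q), fun y hy => ?_⟩
  show algebraMap (R ⧸ Q) (FractionRing (R ⧸ Q)) (Ideal.Quotient.mk Q y) = 0
  rw [Ideal.Quotient.eq_zero_iff_mem.2 hy, map_zero]

theorem core (K : Type) [Field K] [NumberField K] (M : IntermediateField K (AlgebraicClosure K))
    [NumberField M] (m : ℕ) (hm : 4 ≤ m) (W₀ : ℕ) :
    ∃ q : ℕ, q.Prime ∧ W₀ < q ∧ ∃ a0 : Fin (m - 1) → 𝓞 M, ∀ a : Fin (m - 1) → 𝓞 M,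
      (∀ i, (q : 𝓞 M) ∣ a i - a0 i) →
      ∃ s : AlgebraicClosure K ≃ₐ[K] AlgebraicClosure K,
        (∀ φ : M →ₐ[K] AlgebraicClosure K, s.toAlgHom.comp φ = φ) ∧
        (∀ φ : M →ₐ[K] AlgebraicClosure K, φ ≠ M.val → ∀ z ∈ Zr M φ (pol m a), s z = z) ∧
        ∃ z₁ z₂ : AlgebraicClosure K, z₁ ∈ Zr M M.val (pol m a) ∧ z₂ ∈ Zr M M.val (pol m a) ∧ z₁ ≠ z₂ ∧
          s z₁ = z₂ ∧ s z₂ = z₁ ∧ ∀ z ∈ Zr M M.val (pol m a), z ≠ z₁ → z ≠ z₂ → s z = z := by
  classical
  obtain ⟨α, W, hW⟩ := Pool.Agent.N288.WR.t_ALP K M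
  obtain ⟨S, hS1, hS2⟩ := Pool.Agent.N545.WR.t_SPL M (W + W₀ + m) 1
  obtain ⟨q, hqS⟩ : ∃ q, q ∈ S := by
    obtain ⟨q, hq⟩ := Finset.card_eq_one.1 hS1
    exact ⟨q, by rw [hq]; exact Finset.mem_singleton_self q⟩
  obtain ⟨hq, hqW, -, hspl⟩ := hS2 q hqS
  have hfq : Fact q.Prime := ⟨hq⟩
  obtain ⟨𝔮, h𝔮m, h𝔮0, hq𝔮⟩ := exists_over M q
  have h𝔮 : 𝔮.IsPrime := h𝔮m.isPrime
  obtain ⟨gC, c1, c2, c3, c4⟩ := exC (ZMod q) q m hm (by omega)
  obtain ⟨gL, l1, l2, l3, l4⟩ := exL (ZMod q) q m hm (by omega)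
  have hq0 : (q : 𝓞 M) ≠ 0 := by exact_mod_cast hq.ne_zero
  have hI0 : Ideal.span {(q : 𝓞 M)} ≠ ⊥ := by
    rw [Ne, Ideal.span_singleton_eq_bot]
    exact hq0
  have hfac : ∀ P : Ideal (𝓞 M), P ∈ (UniqueFactorizationMonoid.normalizedFactors
      (Ideal.span {(q : 𝓞 M)})).toFinset ↔ P.IsPrime ∧ (q : 𝓞 M) ∈ P := by
    intro P
    rw [Multiset.mem_toFinset, Ideal.mem_normalizedFactors_iff hI0, Ideal.span_singleton_le_iff_mem]
  choose a0 ha0 using fun i : Fin (m - 1) => crtp (UniqueFactorizationMonoid.normalizedFactors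
      (Ideal.span {(q : 𝓞 M)})).toFinset (fun P hP => ⟨((hfac P).1 hP).1, by
        rintro rfl
        have h1 := ((hfac ⊥).1 hP).2
        rw [Ideal.mem_bot] at h1
        exact hq0 h1⟩)
    (fun P : Ideal (𝓞 M) => if P = 𝔮 then (((gC.coeff (i : ℕ)).val : ℕ) : 𝓞 M) else
      (((gL.coeff (i : ℕ)).val : ℕ) : 𝓞 M))
  refine ⟨q, hq, by omega, a0, fun a ha => ?_⟩
  have hcong : ∀ (P : Ideal (𝓞 M)) (hP : P.IsPrime) (hqP : (q : 𝓞 M) ∈ P) (π : 𝓞 M →+* ZMod q)
      (hπ : ∀ a : 𝓞 M, π a = 0 ↔ a ∈ P) (i : Fin (m - 1)),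
      π (a i) = if P = 𝔮 then gC.coeff (i : ℕ) else gL.coeff (i : ℕ) := by
    intro P hP hqP π hπ i
    have h1 : π (a i) = π (a0 i) := by
      rw [← sub_eq_zero, ← map_sub, hπ]
      obtain ⟨w, hw⟩ := ha i
      rw [hw]
      exact P.mul_mem_right _ hqP
    have h2 := (hπ _).2 (ha0 i P ((hfac P).2 ⟨hP, hqP⟩))
    rw [map_sub, sub_eq_zero] at h2
    rw [h1, h2]
    split_ifs
    · rw [map_natCast, ZMod.natCast_val, ZMod.cast_id]
    · rw [map_natCast, ZMod.natCast_val, ZMod.cast_id]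
  set f : (𝓞 M)[X] := pol m a with hf'
  have hf : f.Monic := pol_monic m (by omega) a
  have hred : ∀ (P : Ideal (𝓞 M)) (hP : P.IsPrime) (hqP : (q : 𝓞 M) ∈ P) (π : 𝓞 M →+* ZMod q)
      (hπ : ∀ a : 𝓞 M, π a = 0 ↔ a ∈ P), f.map π = if P = 𝔮 then gC else gL := by
    intro P hP hqP π hπ
    by_cases h : P = 𝔮
    · rw [if_pos h]
      exact pol_map M (ZMod q) π m (by omega) gC c1 c2 c3 a (fun i => by
        rw [hcong P hP hqP π hπ i, if_pos h])
    · rw [if_neg h]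
      exact pol_map M (ZMod q) π m (by omega) gL l1 l2 l3 a (fun i => by
        rw [hcong P hP hqP π hπ i, if_neg h])
  obtain ⟨𝔔, h𝔔, hcomap⟩ := lies_over M.val 𝔮
  haveI := h𝔔
  haveI : FiniteDimensional K M := inferInstance
  haveI : Finite (M →ₐ[K] AlgebraicClosure K) := inferInstance
  have hq𝔔 : (q : integralClosure ℤ (AlgebraicClosure K)) ∈ 𝔔 := by
    rw [← hcomap] at hq𝔮
    have := Ideal.mem_comap.1 hq𝔮
    rwa [map_natCast] at this
  have hp : ∀ φ : M →ₐ[K] AlgebraicClosure K, (𝔔.comap (io φ)).IsPrime := fun φ =>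
    Ideal.IsPrime.comap _
  have hqp : ∀ φ : M →ₐ[K] AlgebraicClosure K, (q : 𝓞 M) ∈ 𝔔.comap (io φ) := fun φ => by
    rw [Ideal.mem_comap, map_natCast]
    exact hq𝔔
  -- the finite set
  have hTfin : {t : integralClosure ℤ (AlgebraicClosure K) |
      (∃ φ : M →ₐ[K] AlgebraicClosure K, (t : AlgebraicClosure K) ∈ Zr M φ f) ∨
      ∃ φ : M →ₐ[K] AlgebraicClosure K, t = io φ α}.Finite := by
    apply Set.Finite.union
    · have h1 : (⋃ φ : M →ₐ[K] AlgebraicClosure K, Zr M φ f).Finite :=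
        Set.finite_iUnion fun φ => zr_fin φ f hf
      have h2 := h1.preimage (f := fun t : integralClosure ℤ (AlgebraicClosure K) =>
        (t : AlgebraicClosure K)) (Subtype.val_injective.injOn)
      refine h2.subset ?_
      rintro t ⟨φ, ht⟩
      exact Set.mem_iUnion.2 ⟨φ, ht⟩
    · have h1 := Set.finite_range (fun φ : M →ₐ[K] AlgebraicClosure K => io φ α)
      refine h1.subset ?_
      rintro t ⟨φ, ht⟩
      exact ⟨φ, ht.symm⟩
  obtain ⟨s, hs⟩ := Pool.Agent.N710.WR.t_FR1 K hTfin.toFinset 𝔔 q hq h𝔔 hq𝔔 (by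
    intro a
    have h1 : (algebraMap (𝓞 K) (𝓞 M) a) ^ q - algebraMap (𝓞 K) (𝓞 M) a ∈ 𝔔.comap (io M.val) :=
      hspl _ (hp M.val) (hqp M.val) _
    refine ⟨io M.val ((algebraMap (𝓞 K) (𝓞 M) a) ^ q - algebraMap (𝓞 K) (𝓞 M) a),
      Ideal.mem_comap.1 h1, ?_⟩
    rw [io_coe]
    have h2 : (((algebraMap (𝓞 K) (𝓞 M) a) ^ q - algebraMap (𝓞 K) (𝓞 M) a : 𝓞 M) : M) =
        algebraMap K M ((a ^ q - a : 𝓞 K) : K) := by
      rw [← map_pow, ← map_sub]
      rfl
    rw [h2]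
    exact M.val.commutes _)
  have hsT : ∀ t : integralClosure ℤ (AlgebraicClosure K),
      ((∃ φ : M →ₐ[K] AlgebraicClosure K, (t : AlgebraicClosure K) ∈ Zr M φ f) ∨
      ∃ φ : M →ₐ[K] AlgebraicClosure K, t = io φ α) → ∃ y ∈ 𝔔,
        (y : AlgebraicClosure K) = s (t : AlgebraicClosure K) - (t : AlgebraicClosure K) ^ q :=
    fun t ht => hs t (hTfin.mem_toFinset.2 ht)
  -- `s` fixes the embeddings
  have hfix : ∀ φ : M →ₐ[K] AlgebraicClosure K, s.toAlgHom.comp φ = φ := by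
    intro φ
    by_contra hne
    obtain ⟨y, hy, hy2⟩ := hsT (io φ α) (Or.inr ⟨φ, rfl⟩)
    have h1 : α ^ q - α ∈ 𝔔.comap (io φ) := hspl _ (hp φ) (hqp φ) _
    have h2 := Ideal.mem_comap.1 h1
    refine hW q 𝔔 hq (by omega) h𝔔 hq𝔔 (s.toAlgHom.comp φ) φ hne (y + io φ (α ^ q - α)) ?_
      (𝔔.add_mem hy h2)
    have h3 : ((y + io φ (α ^ q - α) : integralClosure ℤ (AlgebraicClosure K)) :
        AlgebraicClosure K) = (y : AlgebraicClosure K) + φ (α : M) ^ q - φ (α : M) := by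
      rw [map_sub, map_pow]
      show (y : AlgebraicClosure K) + (φ (α : M) ^ q - φ (α : M)) = _
      ring
    rw [h3, hy2, io_coe]
    show s (φ (α : M)) - φ (α : M) ^ q + φ (α : M) ^ q - φ (α : M) = s (φ (α : M)) - φ (α : M)
    ring
  -- different primes
  have hdiff : ∀ φ : M →ₐ[K] AlgebraicClosure K, φ ≠ M.val → 𝔔.comap (io φ) ≠ 𝔮 := by
    intro φ hne heq
    obtain ⟨i, hi⟩ := exists_nat 𝔮 q hq hq𝔮 α (hspl 𝔮 h𝔮 hq𝔮 α)
    have h1 : io φ (α - (i : 𝓞 M)) ∈ 𝔔 := by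
      rw [← heq] at hi
      exact Ideal.mem_comap.1 hi
    have h2 : io M.val (α - (i : 𝓞 M)) ∈ 𝔔 := by
      rw [← hcomap] at hi
      exact Ideal.mem_comap.1 hi
    refine hW q 𝔔 hq (by omega) h𝔔 hq𝔔 φ M.val hne
      (io φ (α - (i : 𝓞 M)) - io M.val (α - (i : 𝓞 M))) ?_ (𝔔.sub_mem h1 h2)
    rw [map_sub, map_sub, map_natCast, map_natCast, sub_sub_sub_cancel_right]
    rfl
  -- the residue field
  obtain ⟨F, _, r, hr⟩ := exists_res 𝔔 h𝔔
  have hFq : CharP F q := by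
    apply (CharP.charP_iff_prime_eq_zero hq).2
    rw [← map_natCast r]
    exact hr _ hq𝔔
  let hA : Algebra (ZMod q) F := ZMod.algebra F q
  have hZr : ∀ φ : M →ₐ[K] AlgebraicClosure K,
      (algebraMap (integralClosure ℤ (AlgebraicClosure K)) (AlgebraicClosure K)).comp (io φ) =
        (φ : M →+* AlgebraicClosure K).comp (algebraMap (𝓞 M) M) := fun φ => by
    ext x
    rfl
  have hmem : ∀ (φ : M →ₐ[K] AlgebraicClosure K) (z : AlgebraicClosure K), z ∈ Zr M φ f ↔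
      (f.map ((algebraMap (integralClosure ℤ (AlgebraicClosure K)) (AlgebraicClosure K)).comp (io φ))).eval z
        = 0 := by
    intro φ z
    rw [hZr φ]
    exact Iff.rfl
  have hsmap : ∀ (φ : M →ₐ[K] AlgebraicClosure K) (z : AlgebraicClosure K), z ∈ Zr M φ f →
      s z ∈ Zr M φ f := by
    intro φ z hz
    have h1 : (f.map ((φ : M →+* AlgebraicClosure K).comp (algebraMap (𝓞 M) M))).eval z = 0 := hz
    have h2 := congrArg s h1
    rw [map_zero, eval_map] at h2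
    have h3 := hom_eval₂ f ((φ : M →+* AlgebraicClosure K).comp (algebraMap (𝓞 M) M))
      (s : AlgebraicClosure K →+* AlgebraicClosure K) z
    have h4 : (s : AlgebraicClosure K →+* AlgebraicClosure K).comp
        ((φ : M →+* AlgebraicClosure K).comp (algebraMap (𝓞 M) M)) =
        (φ : M →+* AlgebraicClosure K).comp (algebraMap (𝓞 M) M) := by
      ext x
      exact DFunLike.congr_fun (hfix φ) (x : M)
    rw [h4] at h3
    show (f.map ((φ : M →+* AlgebraicClosure K).comp (algebraMap (𝓞 M) M))).eval (s z) = 0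
    rw [eval_map]
    exact h3.symm.trans h2
  have hcomm : ∀ (φ : M →ₐ[K] AlgebraicClosure K) (π : 𝓞 M →+* ZMod q)
      (hπ : ∀ a : 𝓞 M, π a = 0 ↔ a ∈ 𝔔.comap (io φ)),
      r.comp (io φ) = (algebraMap (ZMod q) F).comp π := by
    intro φ π hπ
    ext x
    obtain ⟨i, hi⟩ := exists_nat (𝔔.comap (io φ)) q hq (hqp φ) x (hspl _ (hp φ) (hqp φ) x)
    have h1 : π x = (i : ZMod q) := by
      have := (hπ _).2 hi
      rw [map_sub, map_natCast, sub_eq_zero] at this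
      exact this
    have h2 : r (io φ x) = (i : F) := by
      have := hr _ (Ideal.mem_comap.1 hi)
      rw [map_sub, map_sub, map_natCast, map_natCast, sub_eq_zero] at this
      exact this
    show r (io φ x) = algebraMap (ZMod q) F (π x)
    rw [h1, h2, map_natCast]
  have hcard : Nat.card (ZMod q) = q := Nat.card_zmod q
  have hfrob : ∀ (φ : M →ₐ[K] AlgebraicClosure K) (z : AlgebraicClosure K), z ∈ Zr M φ f →
      ∃ y : integralClosure ℤ (AlgebraicClosure K), r y = 0 ∧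
        (y : AlgebraicClosure K) = s z - z ^ Nat.card (ZMod q) := by
    intro φ z hz
    obtain ⟨y, hy, hy2⟩ := hsT ⟨z, zr_int φ f hf z hz⟩ (Or.inl ⟨φ, hz⟩)
    exact ⟨y, hr y hy, by rw [hcard]; exact hy2⟩
  refine ⟨s, hfix, ?_, ?_⟩
  · intro φ hne z hz
    obtain ⟨π, hπ⟩ := resd (𝔔.comap (io φ)) (hp φ) q (hqp φ) (fun a => hspl _ (hp φ) (hqp φ) a)
    have h1 := hred _ (hp φ) (hqp φ) π hπ
    rw [if_neg (hdiff φ hne)] at h1
    exact fib_lin r (io φ) π (hcomm φ π hπ) f hf (fun z => s z)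
      (fun z hz => (hmem φ _).1 (hsmap φ z ((hmem φ z).2 hz)))
      (fun z hz => hfrob φ z ((hmem φ z).2 hz)) m (by rw [h1]; exact l4) z ((hmem φ z).1 hz)
  · obtain ⟨π, hπ⟩ := resd (𝔔.comap (io M.val)) (hp M.val) q (hqp M.val)
      (fun a => hspl _ (hp M.val) (hqp M.val) a)
    have h1 := hred _ (hp M.val) (hqp M.val) π hπ
    rw [if_pos hcomap] at h1
    obtain ⟨z₁, z₂, e1, e2, e3, e4, e5, e6⟩ := fib_tr r (io M.val) π (hcomm M.val π hπ) f hf (fun z => s z)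
      (fun z hz => (hmem M.val _).1 (hsmap M.val z ((hmem M.val z).2 hz)))
      (fun z hz => hfrob M.val z ((hmem M.val z).2 hz)) (m - 2) (by rw [h1]; exact c4)
    exact ⟨z₁, z₂, (hmem _ _).2 e1, (hmem _ _).2 e2, e3, e4, e5, fun z hz => e6 z ((hmem _ _).1 hz)⟩

end Pool.Agent.D0H64.WS
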