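import Pool.Agent.N749.WR.FBR
import Pool.Agent.D0H42.SFK.Grp

/-!
# The roots of one conjugate polynomial and a Frobenius element

`𝔔` is a prime ideal of the ring of all integers over the prime number `q`, `f` a polynomial over `R`, and the
reduction of `f` has its coefficients in a field `k` with `q` elements. If it is a product of different linear factors
then a Frobenius element fixes all the roots; if it is the product of an irreducible quadratic polynomial and different
linear factors then it interchanges two roots and fixes the others.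
-/

set_option autoImplicit false
set_option linter.all false

open Polynomial

namespace Pool.Agent.D0H64.WS

open Pool.Agent.D0H42.SFK (TC)

/-- different linear factors -/
def TL (k : Type) [Field k] (m : ℕ) (g : k[X]) : Prop :=
  ∃ c : Fin m → k, Function.Injective c ∧ g = ∏ i, (X - C (c i))

lemma sepL {k : Type} [Field k] (m : ℕ) (g : k[X]) (hg : TL k m g) : g.Separable := by
  obtain ⟨c, hc, rfl⟩ := hg
  exact separable_prod_X_sub_C_iff.mpr hc

lemma prod_all (k : Type) [Field k] [Fintype k] :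
    ∏ a : k, (X - C a : k[X]) = X ^ Fintype.card k - X := by
  have h1 : 1 < Fintype.card k := Fintype.one_lt_card
  have hmon : (X ^ Fintype.card k - X : k[X]).Monic := by
    apply monic_X_pow_sub
    rw [degree_X]
    exact_mod_cast h1
  have hdeg : (X ^ Fintype.card k - X : k[X]).natDegree = Fintype.card k :=
    FiniteField.X_pow_card_sub_X_natDegree_eq _ h1
  have h2 := Polynomial.prod_multiset_X_sub_C_of_monic_of_roots_card_eq hmon (by
    rw [FiniteField.roots_X_pow_card_sub_X, hdeg]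
    simp)
  rw [FiniteField.roots_X_pow_card_sub_X] at h2
  exact h2

section

variable {Ω k F R : Type} [Field Ω] [CharZero Ω] [IsAlgClosed Ω] [Field k] [Finite k] [Field F] [Algebra k F]
  [CommRing R] (r : integralClosure ℤ Ω →+* F) (j : R →+* integralClosure ℤ Ω) (π : R →+* k)
  (hc : r.comp j = (algebraMap k F).comp π) (f : R[X]) (hf : f.Monic) (s : Ω → Ω)
  (hs : ∀ z : Ω, (f.map ((algebraMap (integralClosure ℤ Ω) Ω).comp j)).eval z = 0 →
    (f.map ((algebraMap (integralClosure ℤ Ω) Ω).comp j)).eval (s z) = 0)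
  (hq : ∀ z : Ω, (f.map ((algebraMap (integralClosure ℤ Ω) Ω).comp j)).eval z = 0 →
    ∃ y : integralClosure ℤ Ω, r y = 0 ∧ (y : Ω) = s z - z ^ Nat.card k)

include hc hf hs hq

/-- the reduction map on the roots -/
theorem red' (hsep : (f.map π).Separable) : ∃ ρ : Ω → F,
    (∀ z : Ω, (f.map ((algebraMap (integralClosure ℤ Ω) Ω).comp j)).eval z = 0 →
      aeval (ρ z) (f.map π) = 0 ∧ ρ (s z) = ρ z ^ Nat.card k) ∧
    (∀ z : Ω, (f.map ((algebraMap (integralClosure ℤ Ω) Ω).comp j)).eval z = 0 →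
      ∀ z' : Ω, (f.map ((algebraMap (integralClosure ℤ Ω) Ω).comp j)).eval z' = 0 → ρ z = ρ z' → z = z') ∧
    (∀ y : F, aeval y (f.map π) = 0 →
      ∃ z : Ω, (f.map ((algebraMap (integralClosure ℤ Ω) Ω).comp j)).eval z = 0 ∧ ρ z = y) ∧
    ((f.map π).map (algebraMap k F)).Splits := by
  have hF : (f.map j).Monic := hf.map _
  have hm : (f.map j).map r = (f.map π).map (algebraMap k F) := by
    rw [Polynomial.map_map, Polynomial.map_map, hc]
  have hm2 : (f.map j).map (algebraMap (integralClosure ℤ Ω) Ω) =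
      f.map ((algebraMap (integralClosure ℤ Ω) Ω).comp j) := by
    rw [Polynomial.map_map]
  obtain ⟨ρ, h1, -, h2, h3, h4⟩ := Pool.Agent.N749.WR.red (f.map j) hF r (by rw [hm]; exact hsep.map)
  rw [hm2] at h2 h3 h4
  rw [hm] at h3 h4
  refine ⟨ρ, ?_, ?_, ?_, ?_⟩
  · intro z hz
    obtain ⟨h5, x, hx⟩ := h3 z hz
    refine ⟨by rw [aeval_def, ← eval_map]; exact h5, ?_⟩
    obtain ⟨-, x', hx'⟩ := h3 (s z) (hs z hz)
    obtain ⟨y, hy, hy2⟩ := hq z hz
    rw [← hx', h1, ← hx, h1]
    have h6 : x' = x ^ Nat.card k + y := by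
      apply Subtype.ext
      show (x' : Ω) = (x : Ω) ^ Nat.card k + (y : Ω)
      rw [hx', hx, hy2]
      ring
    rw [h6, map_add, hy, add_zero, map_pow]
  · intro z hz z' hz' h
    exact h2 hz hz' h
  · intro y hy
    rw [aeval_def, ← eval_map] at hy
    exact h4 y hy
  · obtain ⟨S, hS, -⟩ := Pool.Agent.N749.WR.spl (f.map j) hF
    rw [← hm]
    conv => rw [hS]
    rw [Polynomial.map_multiset_prod, Multiset.map_map]
    refine Polynomial.Splits.multisetProd ?_
    intro p hp
    rw [Multiset.mem_map] at hp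
    obtain ⟨x, -, rfl⟩ := hp
    simp only [Function.comp, Polynomial.map_sub, map_X, map_C]
    exact Splits.X_sub_C _

/-- different linear factors -/
theorem fib_lin (m : ℕ) (hg : TL k m (f.map π)) (z : Ω)
    (hz : (f.map ((algebraMap (integralClosure ℤ Ω) Ω).comp j)).eval z = 0) : s z = z := by
  have := Fintype.ofFinite k
  obtain ⟨ρ, h1, h2, -, -⟩ := red' r j π hc f hf s hs hq (sepL m _ hg)
  obtain ⟨c, -, hg⟩ := hg
  refine h2 _ (hs z hz) _ hz ?_
  obtain ⟨h3, h4⟩ := h1 z hz
  rw [h4]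
  rw [hg, map_prod, Finset.prod_eq_zero_iff] at h3
  obtain ⟨i, -, hi⟩ := h3
  rw [map_sub, aeval_X, aeval_C, sub_eq_zero] at hi
  rw [hi, ← map_pow, Nat.card_eq_fintype_card, FiniteField.pow_card]

/-- a quadratic factor and different linear factors -/
theorem fib_tr (m : ℕ) (hg : TC k m (f.map π)) :
    ∃ z₁ z₂ : Ω, (f.map ((algebraMap (integralClosure ℤ Ω) Ω).comp j)).eval z₁ = 0 ∧
      (f.map ((algebraMap (integralClosure ℤ Ω) Ω).comp j)).eval z₂ = 0 ∧ z₁ ≠ z₂ ∧ s z₁ = z₂ ∧ s z₂ = z₁ ∧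
      ∀ z : Ω, (f.map ((algebraMap (integralClosure ℤ Ω) Ω).comp j)).eval z = 0 → z ≠ z₁ → z ≠ z₂ → s z = z := by
  have := Fintype.ofFinite k
  obtain ⟨ρ, h1, h2, h3, h4⟩ := red' r j π hc f hf s hs hq (Pool.Agent.D0H42.SFK.sepC m _ hg)
  obtain ⟨h, c, hi, hd, -, hg⟩ := hg
  -- the two roots of `h`
  have hspl : (h.map (algebraMap k F)).Splits := by
    refine h4.of_dvd ?_ ?_
    · exact ((hf.map π).map _).ne_zero
    · rw [hg, Polynomial.map_mul]
      exact dvd_mul_right _ _
  have hcard : Fintype.card (h.rootSet F) = 2 := by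
    rw [card_rootSet_eq_natDegree (PerfectField.separable_of_irreducible hi) hspl, hd]
  have hcard' : Nat.card (h.rootSet F) = 2 := by rw [Nat.card_eq_fintype_card, hcard]
  obtain ⟨x, y, hxy, hU⟩ := Set.ncard_eq_two.mp (show (h.rootSet F).ncard = 2 from hcard')
  have hx : aeval x h = 0 := by
    have : x ∈ h.rootSet F := by rw [hU]; simp
    exact (mem_rootSet.mp this).2
  have hy : aeval y h = 0 := by
    have : y ∈ h.rootSet F := by rw [hU]; simp
    exact (mem_rootSet.mp this).2
  have hxy' : ∀ z : F, aeval z h = 0 → z = x ∨ z = y := by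
    intro z hz
    have h4 : z ∈ h.rootSet F := mem_rootSet.mpr ⟨hi.ne_zero, hz⟩
    rw [hU] at h4
    simpa using h4
  -- the Frobenius map interchanges them
  have hroot : ∀ z : F, aeval z h = 0 → aeval (z ^ Nat.card k) h = 0 := by
    intro z hz
    have h5 := Polynomial.aeval_algHom_apply (FiniteField.frobeniusAlgHom k F) z h
    rw [hz, map_zero] at h5
    rw [Nat.card_eq_fintype_card]
    exact h5
  have hnf : ∀ z : F, aeval z h = 0 → z ^ Nat.card k ≠ z := by
    intro z hz hzq
    have h5 : ∃ a : k, z = algebraMap k F a := by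
      have h6 := prod_all k
      have h7 := congrArg (fun p => aeval z p) h6
      simp only [map_prod, map_sub, map_pow, aeval_X, aeval_C] at h7
      rw [← Nat.card_eq_fintype_card, hzq, sub_self, Finset.prod_eq_zero_iff] at h7
      obtain ⟨a, -, ha⟩ := h7
      exact ⟨a, sub_eq_zero.1 ha⟩
    obtain ⟨a, rfl⟩ := h5
    rw [aeval_algebraMap_apply] at hz
    have h6 : aeval a h = 0 := (algebraMap k F).injective (by rw [hz, map_zero])
    rw [coe_aeval_eq_eval] at h6
    exact hi.not_isRoot_of_natDegree_ne_one (by omega) h6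
  have hxq : x ^ Nat.card k = y := (hxy' _ (hroot x hx)).resolve_left (hnf x hx)
  have hyq : y ^ Nat.card k = x := (hxy' _ (hroot y hy)).resolve_right (hnf y hy)
  have hdv : ∀ z : F, aeval z h = 0 → aeval z (f.map π) = 0 := by
    intro z hz
    rw [hg, map_mul, hz, zero_mul]
  obtain ⟨z₁, hz₁, hz₁'⟩ := h3 x (hdv x hx)
  obtain ⟨z₂, hz₂, hz₂'⟩ := h3 y (hdv y hy)
  refine ⟨z₁, z₂, hz₁, hz₂, ?_, ?_, ?_, ?_⟩
  · rintro rfl
    exact hxy (hz₁'.symm.trans hz₂')
  · refine h2 _ (hs _ hz₁) _ hz₂ ?_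
    rw [(h1 _ hz₁).2, hz₁', hz₂', hxq]
  · refine h2 _ (hs _ hz₂) _ hz₁ ?_
    rw [(h1 _ hz₂).2, hz₁', hz₂', hyq]
  · intro z hz hne1 hne2
    refine h2 _ (hs _ hz) _ hz ?_
    obtain ⟨h5, h6⟩ := h1 z hz
    rw [h6]
    rw [hg, map_mul, mul_eq_zero] at h5
    rcases h5 with h5 | h5
    · rcases hxy' _ h5 with h7 | h7
      · exact absurd (h2 _ hz _ hz₁ (h7.trans hz₁'.symm)) hne1
      · exact absurd (h2 _ hz _ hz₂ (h7.trans hz₂'.symm)) hne2
    · rw [map_prod, Finset.prod_eq_zero_iff] at h5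
      obtain ⟨i, -, hi⟩ := h5
      rw [map_sub, aeval_X, aeval_C, sub_eq_zero] at hi
      rw [hi, ← map_pow, Nat.card_eq_fintype_card, FiniteField.pow_card]

end

end Pool.Agent.D0H64.WS
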