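import Pool.Agent.D0H64.WS.Grp
import Pool.Agent.D0H64.WS.Core

/-!
# A congruence condition which forces the full wreath product
-/

set_option autoImplicit false
set_option linter.all false

open Polynomial NumberField

namespace Pool.Agent.D0H64.WS

open Pool.Agent.D0H15.SK (pol polK pol_monic pol_natDegree Sym t_ROOT)
open Pool.Agent.N783.CF (Zr Spl WFull)
open Pool.Agent.N783.PF (fF)
open Pool.Agent.N914.WR (rs uniq root exi)

section

variable {K : Type} [Field K] [NumberField K] {M : IntermediateField K (AlgebraicClosure K)}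
  [NumberField M] (e : AlgebraicClosure M ≃ₐ[M] AlgebraicClosure K)

/-- A field over `M`, as an extension of `K`. -/
noncomputable def up (L : IntermediateField M (AlgebraicClosure M)) : IntermediateField K (AlgebraicClosure K) :=
  (L.map e.toAlgHom).restrictScalars K

/-- the isomorphism -/
noncomputable def eL (L : IntermediateField M (AlgebraicClosure M)) : L ≃+* up e L :=
  { toFun := fun x => ⟨e x.1, x.1, x.2, rfl⟩
    invFun := fun y => ⟨e.symm y.1, by
      obtain ⟨x, hx, hxy⟩ := y.2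
      have : e.symm y.1 = x := by
        rw [← hxy]
        exact e.symm_apply_apply x
      rw [this]
      exact hx⟩
    left_inv := fun x => Subtype.ext (e.symm_apply_apply x.1)
    right_inv := fun y => Subtype.ext (e.apply_symm_apply y.1)
    map_mul' := fun x y => Subtype.ext (map_mul e x.1 y.1)
    map_add' := fun x y => Subtype.ext (map_add e x.1 y.1) }

theorem eL_coe (L : IntermediateField M (AlgebraicClosure M)) (x : L) :
    ((eL e L x : up e L) : AlgebraicClosure K) = e x.1 := rfl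

theorem le_up (L : IntermediateField M (AlgebraicClosure M)) : M ≤ up e L := by
  intro x hx
  exact (L.map e.toAlgHom).algebraMap_mem ⟨x, hx⟩

theorem up_inj : Function.Injective (fun L : IntermediateField M (AlgebraicClosure M) => up e L) :=
  fun L L' h => IntermediateField.map_injective _ (IntermediateField.restrictScalars_injective K h)

theorem finrank_up (L : IntermediateField M (AlgebraicClosure M)) :
    Module.finrank K (up e L) = Module.finrank K M * Module.finrank M L := by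
  have e1 : Module.finrank M (L.map e.toAlgHom) = Module.finrank M L :=
    (IntermediateField.intermediateFieldMap e L).toLinearEquiv.finrank_eq.symm
  have e2 : Module.finrank K (up e L) = Module.finrank K (L.map e.toAlgHom) := rfl
  rw [e2, ← e1, Module.finrank_mul_finrank]

/-- an embedding over `M` -/
noncomputable def dn (L : IntermediateField M (AlgebraicClosure M)) (ψ : up e L →ₐ[K] AlgebraicClosure K)
    (h : rs (le_up e L) ψ = M.val) : L →ₐ[M] AlgebraicClosure M where
  toRingHom := (e.symm : AlgebraicClosure K →+* AlgebraicClosure M).comp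
    ((ψ : up e L →+* AlgebraicClosure K).comp (eL e L : L →+* up e L))
  commutes' := fun m => by
    show e.symm (ψ (eL e L (algebraMap M L m))) = algebraMap M (AlgebraicClosure M) m
    have h1 : eL e L (algebraMap M L m) = IntermediateField.inclusion (le_up e L) m :=
      Subtype.ext (e.commutes m)
    rw [h1]
    have h2 : ψ (IntermediateField.inclusion (le_up e L) m) = (m : AlgebraicClosure K) :=
      DFunLike.congr_fun h m
    rw [h2]
    exact e.symm.commutes m

theorem dn_apply (L : IntermediateField M (AlgebraicClosure M)) (ψ : up e L →ₐ[K] AlgebraicClosure K)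
    (h : rs (le_up e L) ψ = M.val) (x : L) : dn e L ψ h x = e.symm (ψ (eL e L x)) := rfl

theorem dn_inj (L : IntermediateField M (AlgebraicClosure M)) (ψ χ : up e L →ₐ[K] AlgebraicClosure K)
    (h : rs (le_up e L) ψ = M.val) (h' : rs (le_up e L) χ = M.val) (hne : ψ ≠ χ) :
    dn e L ψ h ≠ dn e L χ h' := by
  intro hh
  apply hne
  ext x
  obtain ⟨y, rfl⟩ := (eL e L).surjective x
  have h1 := DFunLike.congr_fun hh y
  rw [dn_apply, dn_apply] at h1
  exact e.symm.injective h1

omit [Field K] [NumberField K] in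
theorem exists_perm {α : Type*} (a b a' b' : α) (h : a ≠ b) (h' : a' ≠ b') :
    ∃ τ : Equiv.Perm α, τ a = a' ∧ τ b = b' := by
  classical
  refine ⟨Equiv.swap (Equiv.swap a a' b) b' * Equiv.swap a a', ?_, ?_⟩
  · rw [Equiv.Perm.mul_apply, Equiv.swap_apply_left]
    refine Equiv.swap_apply_of_ne_of_ne ?_ h'
    intro hh
    have h1 : Equiv.swap a a' a = Equiv.swap a a' b := by rw [Equiv.swap_apply_left]; exact hh
    exact h ((Equiv.swap a a').injective h1)
  · rw [Equiv.Perm.mul_apply, Equiv.swap_apply_left]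

/-- double transitivity over `M` -/
theorem dtrans (L : IntermediateField M (AlgebraicClosure M)) (hsym : Sym L)
    (ψ χ ψ' χ' : up e L →ₐ[K] AlgebraicClosure K)
    (h1 : rs (le_up e L) ψ = M.val) (h2 : rs (le_up e L) χ = M.val) (h3 : rs (le_up e L) ψ' = M.val)
    (h4 : rs (le_up e L) χ' = M.val) (hne : ψ ≠ χ) (hne' : ψ' ≠ χ') :
    ∃ σ : AlgebraicClosure K ≃ₐ[K] AlgebraicClosure K, σ.toAlgHom.comp ψ = ψ' ∧ σ.toAlgHom.comp χ = χ' := by
  classical
  obtain ⟨τ, hτ1, hτ2⟩ := exists_perm _ _ _ _ (dn_inj e L ψ χ h1 h2 hne) (dn_inj e L ψ' χ' h3 h4 hne')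
  obtain ⟨σ, hσ⟩ := hsym τ
  have key : ∀ (η η' : up e L →ₐ[K] AlgebraicClosure K) (h : rs (le_up e L) η = M.val)
      (h' : rs (le_up e L) η' = M.val), τ (dn e L η h) = dn e L η' h' →
      (((e.symm.trans (σ.trans e)).restrictScalars K : AlgebraicClosure K ≃ₐ[K] AlgebraicClosure K)).toAlgHom.comp η
        = η' := by
    intro η η' h h' hh
    ext x
    obtain ⟨y, rfl⟩ := (eL e L).surjective x
    rw [hσ] at hh
    have h5 := DFunLike.congr_fun hh y
    have h6 : σ (e.symm (η (eL e L y))) = e.symm (η' (eL e L y)) := h5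
    show e (σ (e.symm (η (eL e L y)))) = η' (eL e L y)
    rw [h6]
    exact e.apply_symm_apply _
  exact ⟨_, key ψ ψ' h1 h3 hτ1, key χ χ' h2 h4 hτ2⟩

/-- the field of one root -/
theorem wfull_root (m : ℕ) (hm : 2 ≤ m) (a : Fin (m - 1) → 𝓞 M) (hirr : Irreducible (polK m a))
    (s : AlgebraicClosure K ≃ₐ[K] AlgebraicClosure K)
    (hs1 : ∀ φ : M →ₐ[K] AlgebraicClosure K, s.toAlgHom.comp φ = φ)
    (hs2 : ∀ φ : M →ₐ[K] AlgebraicClosure K, φ ≠ M.val → ∀ z ∈ Zr M φ (pol m a), s z = z)
    (hs3 : ∃ z₁ z₂ : AlgebraicClosure K, z₁ ∈ Zr M M.val (pol m a) ∧ z₂ ∈ Zr M M.val (pol m a) ∧ z₁ ≠ z₂ ∧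
          s z₁ = z₂ ∧ s z₂ = z₁ ∧ ∀ z ∈ Zr M M.val (pol m a), z ≠ z₁ → z ≠ z₂ → s z = z)
    (θ : AlgebraicClosure M) (hθ : aeval θ (polK m a) = 0)
    (hsym : Sym (IntermediateField.adjoin M {θ})) :
    WFull M (up e (IntermediateField.adjoin M {θ})) := by
  set L := IntermediateField.adjoin M {θ} with hL
  have hmon : (pol m a).Monic := pol_monic m (by omega) a
  have hKmon : (polK m a).Monic := hmon.map _
  have hint : IsIntegral M θ := ⟨polK m a, hKmon, by rw [← aeval_def]; exact hθ⟩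
  have hfd : FiniteDimensional M L := IntermediateField.adjoin.finiteDimensional hint
  have hNF : NumberField L := NumberField.of_module_finite M L
  have hNF2 : NumberField (up e L) := NumberField.of_ringEquiv _ _ (eL e L)
  have hθL : θ ∈ L := IntermediateField.mem_adjoin_simple_self M θ
  let θ' : up e L := eL e L ⟨θ, hθL⟩
  have hθ' : θ'.1 ∈ Zr M M.val (pol m a) := by
    show ((pol m a).map ((M.val : M →+* AlgebraicClosure K).comp (algebraMap (𝓞 M) M))).eval (e θ) = 0
    have hr2 : (polK m a).eval₂ (algebraMap M (AlgebraicClosure M)) θ = 0 := hθ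
    have hr3 := congrArg e hr2
    rw [map_zero] at hr3
    have hr4 : (polK m a).eval₂ ((e : AlgebraicClosure M →+* AlgebraicClosure K).comp
        (algebraMap M (AlgebraicClosure M))) (e θ) = 0 := by
      rw [← hr3]
      exact (hom_eval₂ (polK m a) (algebraMap M (AlgebraicClosure M))
        (e : AlgebraicClosure M →+* AlgebraicClosure K) θ).symm
    have hc : (e : AlgebraicClosure M →+* AlgebraicClosure K).comp
        (algebraMap M (AlgebraicClosure M)) = (M.val : M →+* AlgebraicClosure K) := by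
      ext m
      exact e.commutes m
    rw [hc] at hr4
    rw [← Polynomial.map_map, eval_map]
    exact hr4
  have hgen : ∀ x : up e L, ∃ c : Fin (minpoly M θ).natDegree → M, x.1 = ∑ i, (c i).1 * θ'.1 ^ (i : ℕ) := by
    intro x
    obtain ⟨y, rfl⟩ := (eL e L).surjective x
    let pb := IntermediateField.adjoin.powerBasis hint
    have h1 := pb.basis.sum_repr y
    refine ⟨fun i => pb.basis.repr y i, ?_⟩
    have h2 : (y : AlgebraicClosure M) = ∑ i, algebraMap M (AlgebraicClosure M) (pb.basis.repr y i) * θ ^ (i : ℕ) := by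
      conv_lhs => rw [← h1]
      have h3 := map_sum (algebraMap L (AlgebraicClosure M))
        (fun i => pb.basis.repr y i • pb.basis i) Finset.univ
      refine h3.trans (Finset.sum_congr rfl fun i _ => ?_)
      rw [Algebra.smul_def, map_mul, pb.coe_basis]
      congr 1
    rw [eL_coe, h2, map_sum]
    refine Finset.sum_congr rfl fun i _ => ?_
    rw [map_mul, map_pow, e.commutes]
    rfl
  have hirr' : Irreducible (fF (pol m a)) := hirr
  obtain ⟨z₁, z₂, hz₁, hz₂, hne, e1, e2, e3⟩ := hs3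
  obtain ⟨ψ, hψ1, hψ2⟩ := exi (le_up e L) hmon hirr' hθ' M.val hz₁
  obtain ⟨χ, hχ1, hχ2⟩ := exi (le_up e L) hmon hirr' hθ' M.val hz₂
  refine wfull_of (le_up e L) (fun a b c d h1 h2 h3 h4 h5 h6 => dtrans e L hsym a b c d h1 h2 h3 h4 h5 h6)
    ⟨s, ψ, χ, ?_, hψ1.trans hχ1.symm, ?_, ?_, ?_⟩
  · rintro rfl
    exact hne (hψ2.symm.trans hχ2)
  · refine uniq (le_up e L) hgen ?_ ?_
    · show s.toAlgHom.comp (rs (le_up e L) ψ) = _
      rw [hs1, hψ1, hχ1]
    · show s (ψ θ') = χ θ'
      rw [hψ2, hχ2, e1]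
  · refine uniq (le_up e L) hgen ?_ ?_
    · show s.toAlgHom.comp (rs (le_up e L) χ) = _
      rw [hs1, hψ1, hχ1]
    · show s (χ θ') = ψ θ'
      rw [hψ2, hχ2, e2]
  · intro η hη1 hη2
    have hz := root (le_up e L) hθ' η
    refine uniq (le_up e L) hgen ?_ ?_
    · show s.toAlgHom.comp (rs (le_up e L) η) = _
      rw [hs1]
    · show s (η θ') = η θ'
      by_cases hφ : rs (le_up e L) η = M.val
      · rw [hφ] at hz
        refine e3 _ hz ?_ ?_
        · intro h
          exact hη1 (uniq (le_up e L) hgen (by rw [hφ, hψ1]) (by rw [h, hψ2]))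
        · intro h
          exact hη2 (uniq (le_up e L) hgen (by rw [hφ, hχ1]) (by rw [h, hχ2]))
      · exact hs2 _ hφ _ hz

end

/-- A congruence condition which forces the symmetric group over `M` and the full wreath product over `K`. -/
theorem wsn (K : Type) [Field K] [NumberField K] (M : IntermediateField K (AlgebraicClosure K)) [NumberField M]
    (e : AlgebraicClosure M ≃ₐ[M] AlgebraicClosure K) (m : ℕ) (hm : 4 ≤ m) : ∃ q : ℕ, 1 ≤ q ∧
    ∃ a0 : Fin (m - 1) → 𝓞 M, ∀ a : Fin (m - 1) → 𝓞 M, (∀ i, (q : 𝓞 M) ∣ a i - a0 i) →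
      Irreducible (polK m a) ∧ ∀ θ : AlgebraicClosure M, aeval θ (polK m a) = 0 →
        Sym (IntermediateField.adjoin M {θ}) ∧ WFull M (up e (IntermediateField.adjoin M {θ})) := by
  obtain ⟨q₁, hq₁, a₁, h₁⟩ := Pool.Agent.D0H42.SFK.t_SN M m hm
  obtain ⟨q₂, hq₂, hlt, a₂, h₂⟩ := core K M m hm q₁
  have hcop : IsCoprime (q₁ : ℤ) (q₂ : ℤ) := by
    rw [Int.isCoprime_iff_gcd_eq_one, Int.gcd_comm]
    have h3 : Nat.Coprime q₂ q₁ := by
      rw [Nat.Prime.coprime_iff_not_dvd hq₂]
      intro h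
      exact absurd (Nat.le_of_dvd hq₁ h) (by omega)
    exact h3
  obtain ⟨v, u, huv⟩ := hcop
  have huv' : (v : 𝓞 M) * (q₁ : 𝓞 M) + (u : 𝓞 M) * (q₂ : 𝓞 M) = 1 := by
    exact_mod_cast congrArg (fun t : ℤ => (t : 𝓞 M)) huv
  refine ⟨q₁ * q₂, Nat.mul_pos hq₁ hq₂.pos, fun i => (u : 𝓞 M) * (q₂ : 𝓞 M) * a₁ i + (v : 𝓞 M) * (q₁ : 𝓞 M) * a₂ i,
    fun a ha => ?_⟩
  have k1 : ∀ i, (q₁ : 𝓞 M) ∣ a i - a₁ i := by
    intro i
    obtain ⟨w, hw⟩ := ha i
    refine ⟨(q₂ : 𝓞 M) * w + (v : 𝓞 M) * (a₂ i - a₁ i), ?_⟩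
    push_cast at hw
    linear_combination hw + a₁ i * huv'
  have k2 : ∀ i, (q₂ : 𝓞 M) ∣ a i - a₂ i := by
    intro i
    obtain ⟨w, hw⟩ := ha i
    refine ⟨(q₁ : 𝓞 M) * w + (u : 𝓞 M) * (a₁ i - a₂ i), ?_⟩
    push_cast at hw
    linear_combination hw + a₂ i * huv'
  obtain ⟨hirr, hsym⟩ := h₁ a k1
  obtain ⟨s, hs1, hs2, hs3⟩ := h₂ a k2
  exact ⟨hirr, fun θ hθ => ⟨hsym θ hθ, wfull_root e m (by omega) a hirr s hs1 hs2 hs3 θ hθ (hsym θ hθ)⟩⟩

end Pool.Agent.D0H64.WS
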