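import Pool.Agent.N783.CF.WRG
import Pool.Agent.N914.WR.WF
import Pool.Agent.D0H42.SF.Grp

/-!
# Wreath products from one transposition

Let `M ≤ L` be finite extensions of the number field `K`. Suppose that the automorphisms over `M` act doubly
transitively on the embeddings of `L` over `M`, and that some automorphism over `K` interchanges two embeddings of
`L` with the same restriction to `M` and fixes all the others. Then the Galois group of `L` over `K` is the full
wreath product.
-/

set_option autoImplicit false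
set_option linter.all false

open Polynomial NumberField

namespace Pool.Agent.D0H64.WS

open Pool.Agent.N783.CF (WFull exists_act)
open Pool.Agent.D0H42.SF (rho rho_apply)
open Pool.Agent.N914.WR (rs)

/-- A permutation which preserves the fibres is in every group which contains the transpositions in the fibres. -/
theorem mem_of_fibre {E B : Type*} [Fintype E] [DecidableEq E] (r : E → B) (R : Subgroup (Equiv.Perm E))
    (h : ∀ a b, r a = r b → a ≠ b → Equiv.swap a b ∈ R) (τ : Equiv.Perm E) (hτ : ∀ x, r (τ x) = r x) :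
    τ ∈ R := by
  have key : ∀ n : ℕ, ∀ τ : Equiv.Perm E, τ.support.card = n → (∀ x, r (τ x) = r x) → τ ∈ R := by
    intro n
    induction n using Nat.strong_induction_on with
    | _ n ih =>
      intro τ hn hτ
      by_cases h1 : τ = 1
      · rw [h1]
        exact R.one_mem
      · obtain ⟨a, ha⟩ : ∃ a, τ a ≠ a := by
          by_contra hcon
          push Not at hcon
          exact h1 (Equiv.ext hcon)
        have h2 := Equiv.Perm.card_support_swap_mul ha
        have hsw : ∀ y, r (Equiv.swap a (τ a) y) = r y := by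
          intro y
          by_cases hy : y = a
          · rw [hy, Equiv.swap_apply_left, hτ]
          · by_cases hy2 : y = τ a
            · rw [hy2, Equiv.swap_apply_right, hτ]
            · rw [Equiv.swap_apply_of_ne_of_ne hy hy2]
        have h3 : Equiv.swap a (τ a) * τ ∈ R := ih _ (hn ▸ h2) _ rfl (by
          intro x
          rw [Equiv.Perm.mul_apply, hsw, hτ])
        have h4 := R.mul_mem (h a (τ a) (hτ a).symm (Ne.symm ha)) h3
        rwa [← mul_assoc, Equiv.swap_mul_self, one_mul] at h4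
  exact key _ τ rfl hτ

theorem wfull_of {K : Type} [Field K] [NumberField K] {M L : IntermediateField K (AlgebraicClosure K)}
    [NumberField M] [NumberField L] (hML : M ≤ L)
    (hA : ∀ ψ χ ψ' χ' : L →ₐ[K] AlgebraicClosure K, rs hML ψ = M.val → rs hML χ = M.val →
      rs hML ψ' = M.val → rs hML χ' = M.val → ψ ≠ χ → ψ' ≠ χ' →
      ∃ σ : AlgebraicClosure K ≃ₐ[K] AlgebraicClosure K, σ.toAlgHom.comp ψ = ψ' ∧ σ.toAlgHom.comp χ = χ')
    (hB : ∃ (s : AlgebraicClosure K ≃ₐ[K] AlgebraicClosure K) (ψ χ : L →ₐ[K] AlgebraicClosure K),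
      ψ ≠ χ ∧ rs hML ψ = rs hML χ ∧ s.toAlgHom.comp ψ = χ ∧ s.toAlgHom.comp χ = ψ ∧
      ∀ η : L →ₐ[K] AlgebraicClosure K, η ≠ ψ → η ≠ χ → s.toAlgHom.comp η = η) :
    WFull M L := by
  classical
  have : FiniteDimensional K L := Module.Finite.of_restrictScalars_finite ℚ K L
  obtain ⟨s, ψ, χ, hne, hr, e1, e2, e3⟩ := hB
  have hsw : rho L s = Equiv.swap ψ χ := by
    apply Equiv.ext
    intro η
    rw [rho_apply]
    by_cases hφ : η = ψ
    · rw [hφ, e1, Equiv.swap_apply_left]
    · by_cases hψ : η = χ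
      · rw [hψ, e2, Equiv.swap_apply_right]
      · rw [e3 η hφ hψ, Equiv.swap_apply_of_ne_of_ne hφ hψ]
  have hrs : ∀ (σ : AlgebraicClosure K ≃ₐ[K] AlgebraicClosure K) (η : L →ₐ[K] AlgebraicClosure K),
      rs hML (σ.toAlgHom.comp η) = σ.toAlgHom.comp (rs hML η) := fun σ η => rfl
  have hinj : ∀ (σ : AlgebraicClosure K ≃ₐ[K] AlgebraicClosure K) (η η' : L →ₐ[K] AlgebraicClosure K),
      η ≠ η' → σ.toAlgHom.comp η ≠ σ.toAlgHom.comp η' := fun σ η η' h h' => h ((rho L σ).injective h')
  -- all transpositions in the fibres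
  have hall : ∀ a b : L →ₐ[K] AlgebraicClosure K, rs hML a = rs hML b → a ≠ b →
      Equiv.swap a b ∈ (rho L).range := by
    intro a b hab hne'
    obtain ⟨u, hu⟩ := exists_act M (rs hML ψ) M.val
    obtain ⟨v, hv⟩ := exists_act M (rs hML a) M.val
    obtain ⟨w, hw1, hw2⟩ := hA (u.toAlgHom.comp ψ) (u.toAlgHom.comp χ) (v.toAlgHom.comp a) (v.toAlgHom.comp b)
      (by rw [hrs, hu]) (by rw [hrs, ← hr, hu]) (by rw [hrs, hv]) (by rw [hrs, ← hab, hv])
      (hinj u _ _ hne) (hinj v _ _ hne')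
    have k1 : rho L (v⁻¹ * w * u) ψ = a := by
      rw [map_mul, map_mul, map_inv, Equiv.Perm.mul_apply, Equiv.Perm.mul_apply, Equiv.Perm.inv_eq_iff_eq]
      exact hw1
    have k2 : rho L (v⁻¹ * w * u) χ = b := by
      rw [map_mul, map_mul, map_inv, Equiv.Perm.mul_apply, Equiv.Perm.mul_apply, Equiv.Perm.inv_eq_iff_eq]
      exact hw2
    refine ⟨(v⁻¹ * w * u) * s * (v⁻¹ * w * u)⁻¹, ?_⟩
    rw [map_mul, map_mul, map_inv, hsw]
    conv_rhs => rw [← k1, ← k2]
    exact (Equiv.swap_apply_apply (rho L (v⁻¹ * w * u)) ψ χ).symm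
  refine ⟨hML, fun τ hτ => ?_⟩
  obtain ⟨ρ, hρ⟩ := hτ
  have hτ' : (rho L ρ)⁻¹ * τ ∈ (rho L).range := by
    refine mem_of_fibre (rs hML) _ hall _ (fun x => ?_)
    have h1 : rs hML (τ x) = ρ.toAlgHom.comp (rs hML x) := hρ x
    have h2 : (rho L ρ)⁻¹ * τ = rho L ρ⁻¹ * τ := by rw [map_inv]
    rw [h2, Equiv.Perm.mul_apply, rho_apply, hrs, h1]
    ext y
    exact ρ.symm_apply_apply _
  obtain ⟨σ, hσ⟩ := hτ'
  refine ⟨ρ * σ, fun η => ?_⟩
  have h1 : rho L (ρ * σ) = τ := by
    rw [map_mul, hσ, mul_inv_cancel_left]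
  rw [← h1]
  rfl

end Pool.Agent.D0H64.WS
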